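import Pool.Agent.Helper20.FS.St3

/-!
# Project SM, module MB (Mittag-Leffler in the completions)
-/

open Topology Filter

namespace Pool.Agent.Helper31.SM

open Pool.Agent.Helper20.FA Pool.Agent.Helper20.FR Pool.Agent.Helper20.FS

attribute [local instance] IsFrechet.tag IsFrechet.csm IsFrechet.lcs

section alg

variable {A : Type} [CommRing A] [Algebra ℂ A]

/-- flexible form of `QB` -/
private def CQ (q r : Seminorm ℂ A) (C : ℝ) (x : ℕ → A) : Prop :=
  (∀ ε : ℝ, 0 < ε → ∃ N, ∀ k ≥ N, ∀ l ≥ N, r (x k - x l) ≤ ε) ∧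
  ∀ ε : ℝ, 0 < ε → ∃ N, ∀ k ≥ N, ∀ b, r (x k * b) ≤ C * q b + ε * r b

private lemma half_small {ε : ℝ} (hε : 0 < ε) : ∃ N : ℕ, ∀ k ≥ N, (1 / 2 : ℝ) ^ k ≤ ε := by
  obtain ⟨n, hn⟩ := exists_pow_lt_of_lt_one hε (by norm_num : (1 / 2 : ℝ) < 1)
  exact ⟨n, fun k hk => (pow_le_pow_of_le_one (by norm_num) (by norm_num) hk).trans hn.le⟩

private lemma CQ_of_QB {q r : Seminorm ℂ A} {C : ℝ} {x : ℕ → A} (h : QB q r C x) :
    CQ q r |C| x := by
  have hc : ∀ n i, r (x (n + i) - x n) ≤ 2 * (1 / 2) ^ n * (1 - (1 / 2) ^ i) := by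
    intro n i
    induction i with
    | zero => simp
    | succ i ih =>
      have e1 : x (n + (i + 1)) - x n = (x (n + i + 1) - x (n + i)) + (x (n + i) - x n) := by
        rw [← add_assoc]
        abel
      rw [e1]
      have h1 := map_add_le_add r (x (n + i + 1) - x (n + i)) (x (n + i) - x n)
      have h2 := h.1 (n + i)
      rw [pow_add] at h2
      rw [pow_succ (1 / 2 : ℝ) i]
      linarith
  refine ⟨fun ε hε => ?_, fun ε hε => ?_⟩
  · obtain ⟨N, hN⟩ := half_small (by positivity : 0 < ε / 4)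
    refine ⟨N, fun k hk l hl => ?_⟩
    have h3 : ∀ k ≥ N, r (x k - x N) ≤ ε / 2 := by
      intro k hk
      obtain ⟨i, rfl⟩ := Nat.exists_eq_add_of_le hk
      have h4 := hc N i
      have h5 := hN N le_rfl
      have h6 : (0 : ℝ) < (1 / 2) ^ i := by positivity
      have h7 : (0 : ℝ) < (1 / 2) ^ N := by positivity
      have h8 := mul_pos h7 h6
      linarith
    have e1 : x k - x l = (x k - x N) - (x l - x N) := by abel
    rw [e1]
    have h4 := map_sub_le_add r (x k - x N) (x l - x N)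
    have h5 := h3 k hk
    have h6 := h3 l hl
    linarith
  · obtain ⟨N, hN⟩ := half_small hε
    refine ⟨N, fun k hk b => (h.2 k b).trans ?_⟩
    have h1 := mul_le_mul_of_nonneg_right (le_abs_self C) (apply_nonneg q b)
    have h2 := mul_le_mul_of_nonneg_right (hN k hk) (apply_nonneg r b)
    linarith

private lemma CQ_bdd {q r : Seminorm ℂ A} {C : ℝ} {x : ℕ → A} (h : CQ q r C x) :
    ∃ S : ℝ, 0 ≤ S ∧ ∀ k, r (x k) ≤ S := by
  obtain ⟨N, hN⟩ := h.1 1 one_pos
  have h0 : 0 ≤ ∑ i ∈ Finset.range (N + 1), r (x i) :=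
    Finset.sum_nonneg fun i _ => apply_nonneg r (x i)
  refine ⟨∑ i ∈ Finset.range (N + 1), r (x i) + 1, by linarith, fun k => ?_⟩
  have h1 : ∀ j, j < N + 1 → r (x j) ≤ ∑ i ∈ Finset.range (N + 1), r (x i) := fun j hj =>
    Finset.single_le_sum (f := fun i => r (x i)) (fun i _ => apply_nonneg r (x i))
      (Finset.mem_range.2 hj)
  rcases Nat.lt_or_ge k N with hk | hk
  · have := h1 k (by omega)
    linarith
  · have h2 := hN k hk N le_rfl
    have h3 : x k = (x k - x N) + x N := by abel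
    have h4 := map_add_le_add r (x k - x N) (x N)
    rw [← h3] at h4
    have h5 := h1 N (by omega)
    linarith

private lemma CQ_sq {p q r : Seminorm ℂ A} (hp : ∀ a b, p (a * b) ≤ p a * p b)
    (hr : ∀ a b, r (a * b) ≤ r a * r b) {C δ : ℝ} (hC : 0 ≤ C) {x : ℕ → A} (h : CQ q r C x)
    (hδ : ∀ k, p (1 - x k) ≤ δ) :
    ∃ (y : ℕ → A) (C' : ℝ), 0 ≤ C' ∧ CQ q r C' y ∧ ∀ k, p (1 - y k) ≤ δ ^ 2 := by
  obtain ⟨S, hS0, hS⟩ := CQ_bdd h
  have hr2 := apply_nonneg r (2 : A)
  obtain ⟨T, hT⟩ : ∃ T : ℝ, T = r 2 + 2 * S + 1 := ⟨_, rfl⟩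
  have hT0 : 0 < T := by linarith
  have h2x : ∀ k, r (2 - x k) ≤ T := by
    intro k
    have h1 := map_sub_le_add r (2 : A) (x k)
    have h2 := hS k
    linarith
  have h2xx : ∀ k l, r (2 - x k - x l) ≤ T := by
    intro k l
    have h1 := map_sub_le_add r (2 - x k) (x l)
    have h3 := map_sub_le_add r (2 : A) (x k)
    have h2 := hS k
    have h4 := hS l
    linarith
  refine ⟨fun k => x k * (2 - x k), T * C, by positivity, ⟨fun ε hε => ?_, fun ε hε => ?_⟩,
    fun k => ?_⟩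
  · obtain ⟨N, hN⟩ := h.1 (ε / T) (by positivity)
    refine ⟨N, fun k hk l hl => ?_⟩
    have e1 : x k * (2 - x k) - x l * (2 - x l) = (x k - x l) * (2 - x k - x l) := by ring
    show r (x k * (2 - x k) - x l * (2 - x l)) ≤ ε
    rw [e1]
    calc r ((x k - x l) * (2 - x k - x l)) ≤ r (x k - x l) * r (2 - x k - x l) := hr _ _
      _ ≤ (ε / T) * T := mul_le_mul (hN k hk l hl) (h2xx k l) (apply_nonneg _ _) (by positivity)
      _ = ε := div_mul_cancel₀ ε hT0.ne'
  · obtain ⟨N, hN⟩ := h.2 (ε / T) (by positivity)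
    refine ⟨N, fun k hk b => ?_⟩
    have e1 : x k * (2 - x k) * b = (2 - x k) * (x k * b) := by ring
    show r (x k * (2 - x k) * b) ≤ _
    rw [e1]
    calc r ((2 - x k) * (x k * b)) ≤ r (2 - x k) * r (x k * b) := hr _ _
      _ ≤ T * (C * q b + ε / T * r b) :=
          mul_le_mul (h2x k) (hN k hk b) (apply_nonneg _ _) hT0.le
      _ = T * C * q b + ε * r b := by field_simp
  · have e1 : 1 - x k * (2 - x k) = (1 - x k) * (1 - x k) := by ring
    show p (1 - x k * (2 - x k)) ≤ _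
    rw [e1, sq]
    exact (hp _ _).trans (mul_le_mul (hδ k) (hδ k) (apply_nonneg _ _)
      ((apply_nonneg p _).trans (hδ k)))

private lemma improve {p q r : Seminorm ℂ A} (hp : ∀ a b, p (a * b) ≤ p a * p b)
    (hr : ∀ a b, r (a * b) ≤ r a * r b)
    (h : ∃ (x : ℕ → A) (C : ℝ), QB q r C x ∧ ∀ k, p (1 - x k) < 1 / 2) (ε : ℝ) (hε : 0 < ε) :
    ∃ (y : ℕ → A) (C : ℝ), 0 ≤ C ∧ CQ q r C y ∧ ∀ k, p (1 - y k) ≤ ε := by
  have key : ∀ n : ℕ, ∃ (y : ℕ → A) (C : ℝ), 0 ≤ C ∧ CQ q r C y ∧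
      ∀ k, p (1 - y k) ≤ (1 / 2) ^ (n + 1) := by
    intro n
    induction n with
    | zero =>
      obtain ⟨x, C, hx, h1⟩ := h
      exact ⟨x, |C|, abs_nonneg C, CQ_of_QB hx, fun k => by simpa using (h1 k).le⟩
    | succ n ih =>
      obtain ⟨y, C, hC, hy, h1⟩ := ih
      obtain ⟨y', C', hC', hy', h2⟩ := CQ_sq hp hr hC hy h1
      refine ⟨y', C', hC', hy', fun k => (h2 k).trans ?_⟩
      rw [← pow_mul]
      exact pow_le_pow_of_le_one (by norm_num) (by norm_num) (by omega)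
  obtain ⟨N, hN⟩ := half_small hε
  obtain ⟨y, C, hC, hy, h1⟩ := key N
  exact ⟨y, C, hC, hy, fun k => (h1 k).trans (hN (N + 1) (by omega))⟩

private lemma stepL {q0 q p R R' : Seminorm ℂ A} (hp : ∀ a b, p (a * b) ≤ p a * p b)
    (hR' : ∀ a b, R' (a * b) ≤ R' a * R' b)
    (hqR : ∀ x, q x ≤ R x) (hRR : ∀ x, R x ≤ R' x) (hpR : ∀ x, p x ≤ R x)
    (H : ∀ ε : ℝ, 0 < ε → ∃ (y : ℕ → A) (C : ℝ), 0 ≤ C ∧ CQ q R' C y ∧ ∀ k, p (1 - y k) ≤ ε)
    {z : ℕ → A} {D : ℝ} (hD : 0 ≤ D) (hz : CQ q0 R D z) {δ : ℝ} (hδ : 0 < δ) :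
    ∃ (z' : ℕ → A) (D' : ℝ), 0 ≤ D' ∧ CQ q0 R' D' z' ∧ (∀ l, p (z' l - z l) ≤ δ) ∧
      ∀ b, ∀ ε : ℝ, 0 < ε → ∃ N, ∀ l ≥ N, p ((z' l - z l) * b) ≤ δ * q0 b + ε := by
  obtain ⟨S, hS0, hS⟩ := CQ_bdd hz
  have hden : 0 < 1 + D + S := by linarith
  obtain ⟨e, he⟩ : ∃ e : ℝ, e = δ / (1 + D + S) := ⟨_, rfl⟩
  have he0 : 0 < e := by rw [he]; positivity
  have heD : e * D ≤ δ ∧ e * S ≤ δ := by
    have h1 : e * (1 + D + S) = δ := by rw [he]; exact div_mul_cancel₀ δ hden.ne'
    have h2 : 0 ≤ e * D := by positivity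
    have h3 : 0 ≤ e * S := by positivity
    constructor <;> linarith
  obtain ⟨y, C, hC, hy, hye⟩ := H e he0
  let T : ℕ → ℝ := fun k => ∑ i ∈ Finset.range (k + 1), R' (z i)
  have hT0 : ∀ k, 0 ≤ T k := fun k => Finset.sum_nonneg fun i _ => apply_nonneg R' (z i)
  have hTle : ∀ i k, i ≤ k → R' (z i) ≤ T k := fun i k hik =>
    Finset.single_le_sum (f := fun i => R' (z i)) (fun i _ => apply_nonneg R' (z i))
      (Finset.mem_range.2 (Nat.lt_succ_of_le hik))
  have hev : ∀ k, ∀ᶠ m in atTop, (∀ m' ≥ m, R' (y m' - y m) ≤ (1 / 2) ^ k / (1 + T k)) ∧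
      ∀ b, R' (y m * b) ≤ C * q b + (1 / 2) ^ k / (1 + T k) * R' b := by
    intro k
    have h1 : 0 < (1 / 2 : ℝ) ^ k / (1 + T k) := by
      have := hT0 k
      positivity
    obtain ⟨N1, hN1⟩ := hy.1 _ h1
    obtain ⟨N2, hN2⟩ := hy.2 _ h1
    refine eventually_atTop.2 ⟨max N1 N2, fun m hm => ⟨fun m' hm' => ?_, ?_⟩⟩
    · exact hN1 m' (((le_max_left _ _).trans hm).trans hm') m ((le_max_left _ _).trans hm)
    · exact hN2 m ((le_max_right _ _).trans hm)
  obtain ⟨φ, hφ, hφP⟩ := extraction_forall_of_eventually hev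
  have hTk : ∀ k, ∀ t : ℝ, 0 ≤ t → t ≤ T k → (1 / 2 : ℝ) ^ k / (1 + T k) * t ≤ (1 / 2) ^ k := by
    intro k t ht0 ht
    have h1 := hT0 k
    have h2 : (0 : ℝ) < (1 / 2) ^ k := by positivity
    rw [div_mul_eq_mul_div, div_le_iff₀ (by linarith)]
    exact mul_le_mul_of_nonneg_left (by linarith) h2.le
  refine ⟨fun k => y (φ k) * z k, C * D, by positivity, ⟨fun ε hε => ?_, fun ε hε => ?_⟩,
    fun l => ?_, fun b ε hε => ?_⟩
  · -- Cauchy
    obtain ⟨N1, hN1⟩ := hz.1 (ε / (4 * (C + 1))) (by positivity)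
    obtain ⟨N2, hN2⟩ := half_small (by positivity : 0 < ε / 4)
    have main : ∀ k l, max N1 N2 ≤ l → l ≤ k →
        R' (y (φ k) * z k - y (φ l) * z l) ≤ ε := by
      intro k l hl hlk
      have hl1 : N1 ≤ l := (le_max_left _ _).trans hl
      have hl2 : N2 ≤ l := (le_max_right _ _).trans hl
      have e1 : y (φ k) * z k - y (φ l) * z l =
          y (φ k) * (z k - z l) + (y (φ k) - y (φ l)) * z l := by ring
      rw [e1]
      have g1 := map_add_le_add R' (y (φ k) * (z k - z l)) ((y (φ k) - y (φ l)) * z l)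
      have g2 := (hφP k).2 (z k - z l)
      have g3 : C * q (z k - z l) ≤ ε / 4 := by
        calc C * q (z k - z l) ≤ C * (ε / (4 * (C + 1))) :=
              mul_le_mul_of_nonneg_left ((hqR _).trans (hN1 k (hl1.trans hlk) l hl1)) hC
          _ = ε / 4 * (C / (C + 1)) := by field_simp
          _ ≤ ε / 4 * 1 := by
              refine mul_le_mul_of_nonneg_left ?_ (by positivity)
              rw [div_le_one (by linarith)]
              linarith
          _ = ε / 4 := mul_one _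
      have g4 : (1 / 2 : ℝ) ^ k / (1 + T k) * R' (z k - z l) ≤ 2 * (1 / 2) ^ k := by
        have h1 := map_sub_le_add R' (z k) (z l)
        have h2 := hTle k k le_rfl
        have h3 := hTle l k hlk
        have h4 := hTk k (R' (z k)) (apply_nonneg _ _) h2
        have h5 := hTk k (R' (z l)) (apply_nonneg _ _) h3
        have h6 : 0 ≤ (1 / 2 : ℝ) ^ k / (1 + T k) := by
          have := hT0 k
          positivity
        have h7 := mul_le_mul_of_nonneg_left h1 h6
        rw [mul_add] at h7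
        linarith
      have g5 : R' ((y (φ k) - y (φ l)) * z l) ≤ (1 / 2) ^ l := by
        calc R' ((y (φ k) - y (φ l)) * z l) ≤ R' (y (φ k) - y (φ l)) * R' (z l) := hR' _ _
          _ ≤ (1 / 2) ^ l / (1 + T l) * R' (z l) :=
              mul_le_mul_of_nonneg_right ((hφP l).1 (φ k) (hφ.monotone hlk)) (apply_nonneg _ _)
          _ ≤ (1 / 2) ^ l := hTk l _ (apply_nonneg _ _) (hTle l l le_rfl)
      have g6 := hN2 k (hl2.trans hlk)
      have g7 := hN2 l hl2
      linarith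
    refine ⟨max N1 N2, fun k hk l hl => ?_⟩
    rcases le_total l k with h | h
    · exact main k l hl h
    · show R' (y (φ k) * z k - y (φ l) * z l) ≤ ε
      rw [map_sub_rev]
      exact main l k hk h
  · -- the bound
    obtain ⟨N1, hN1⟩ := hz.2 (ε / (2 * (C + 1))) (by positivity)
    obtain ⟨N2, hN2⟩ := half_small (by positivity : 0 < ε / 2)
    refine ⟨max N1 N2, fun k hk b => ?_⟩
    have hk1 : N1 ≤ k := (le_max_left _ _).trans hk
    have hk2 : N2 ≤ k := (le_max_right _ _).trans hk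
    have hb := apply_nonneg R' b
    show R' (y (φ k) * z k * b) ≤ _
    rw [mul_assoc]
    have g1 := (hφP k).2 (z k * b)
    have g2 : C * q (z k * b) ≤ C * D * q0 b + ε / 2 * R' b := by
      calc C * q (z k * b) ≤ C * (D * q0 b + ε / (2 * (C + 1)) * R b) :=
            mul_le_mul_of_nonneg_left ((hqR _).trans (hN1 k hk1 b)) hC
        _ = C * D * q0 b + ε / 2 * (C / (C + 1)) * R b := by field_simp
        _ ≤ C * D * q0 b + ε / 2 * 1 * R' b := by
            have h1 : C / (C + 1) ≤ 1 := by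
              rw [div_le_one (by linarith)]
              linarith
            have h2 : 0 ≤ C / (C + 1) := by positivity
            have h3 : ε / 2 * (C / (C + 1)) * R b ≤ ε / 2 * 1 * R' b :=
              mul_le_mul (mul_le_mul_of_nonneg_left h1 (by positivity)) (hRR b)
                (apply_nonneg _ _) (by positivity)
            linarith
        _ = C * D * q0 b + ε / 2 * R' b := by rw [mul_one]
    have g3 : (1 / 2 : ℝ) ^ k / (1 + T k) * R' (z k * b) ≤ ε / 2 * R' b := by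
      have h6 : 0 ≤ (1 / 2 : ℝ) ^ k / (1 + T k) := by
        have := hT0 k
        positivity
      calc (1 / 2 : ℝ) ^ k / (1 + T k) * R' (z k * b)
          ≤ (1 / 2 : ℝ) ^ k / (1 + T k) * (R' (z k) * R' b) :=
            mul_le_mul_of_nonneg_left (hR' _ _) h6
        _ = ((1 / 2 : ℝ) ^ k / (1 + T k) * R' (z k)) * R' b := by ring
        _ ≤ (1 / 2) ^ k * R' b :=
            mul_le_mul_of_nonneg_right (hTk k _ (apply_nonneg _ _) (hTle k k le_rfl)) hb
        _ ≤ ε / 2 * R' b := mul_le_mul_of_nonneg_right (hN2 k hk2) hb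
    linarith
  · have e1 : y (φ l) * z l - z l = (y (φ l) - 1) * z l := by ring
    show p (y (φ l) * z l - z l) ≤ δ
    rw [e1]
    have e2 : p (y (φ l) - 1) = p (1 - y (φ l)) := map_sub_rev _ _ _
    calc p ((y (φ l) - 1) * z l) ≤ p (y (φ l) - 1) * p (z l) := hp _ _
      _ ≤ e * S := by
          rw [e2]
          exact mul_le_mul (hye _) ((hpR _).trans (hS l)) (apply_nonneg _ _) he0.le
      _ ≤ δ := heD.2
  · have hb := apply_nonneg R b
    have hq0 := apply_nonneg q0 b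
    have hden2 : 0 < 1 + e * R b := by positivity
    obtain ⟨N, hN⟩ := hz.2 (ε / (1 + e * R b)) (by positivity)
    refine ⟨N, fun l hl => ?_⟩
    have e1 : (y (φ l) * z l - z l) * b = (y (φ l) - 1) * (z l * b) := by ring
    show p ((y (φ l) * z l - z l) * b) ≤ _
    rw [e1]
    have e2 : p (y (φ l) - 1) = p (1 - y (φ l)) := map_sub_rev _ _ _
    have g1 : e * (ε / (1 + e * R b) * R b) ≤ ε := by
      have h1 : e * (ε / (1 + e * R b) * R b) = ε * (e * R b / (1 + e * R b)) := by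
        field_simp
      rw [h1]
      have h2 : e * R b / (1 + e * R b) ≤ 1 := by
        rw [div_le_one hden2]
        linarith
      calc ε * (e * R b / (1 + e * R b)) ≤ ε * 1 := mul_le_mul_of_nonneg_left h2 hε.le
        _ = ε := mul_one ε
    calc p ((y (φ l) - 1) * (z l * b)) ≤ p (y (φ l) - 1) * p (z l * b) := hp _ _
      _ ≤ e * (D * q0 b + ε / (1 + e * R b) * R b) := by
          rw [e2]
          exact mul_le_mul (hye _) ((hpR _).trans (hN l hl b)) (apply_nonneg _ _) he0.le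
      _ = e * D * q0 b + e * (ε / (1 + e * R b) * R b) := by ring
      _ ≤ δ * q0 b + ε := by
          have h3 := mul_le_mul_of_nonneg_right heD.1 hq0
          linarith

end alg

/-- From a bound on the unit balls to a bound of seminorms. -/
private lemma le_of_ball {E : Type} [AddCommGroup E] [Module ℂ E] (s v : Seminorm ℂ E)
    (h : ∀ x, v x < 1 → s x < 1) (x : E) : s x ≤ v x := by
  refine le_of_forall_pos_le_add fun ε hε => ?_
  have hv := apply_nonneg v x
  have ht : 0 < v x + ε := by linarith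
  have h4 : v ((((v x + ε)⁻¹ : ℝ) : ℂ) • x) < 1 := by
    rw [map_smul_eq_mul, Complex.norm_real, Real.norm_of_nonneg (by positivity),
      inv_mul_lt_iff₀ ht]
    linarith
  have h5 := h _ h4
  rw [map_smul_eq_mul, Complex.norm_real, Real.norm_of_nonneg (by positivity),
      inv_mul_lt_iff₀ ht, mul_one] at h5
  exact h5.le

/-- A countable family of seminorms. -/
private lemma exists_fam (A : Type) [AddCommGroup A] [Module ℂ A] [TopologicalSpace A]
    [IsFrechet A] : ∃ v : ℕ → Seminorm ℂ A, (∀ n, Continuous (v n)) ∧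
      (∀ U ∈ 𝓝 (0 : A), ∃ n, ∀ x, v n x < 1 → x ∈ U) ∧
      ∀ s : Seminorm ℂ A, Continuous s → ∃ n, ∀ x, s x ≤ v n x := by
  have : TopologicalSpace.MetrizableSpace A := IsFrechet.metr
  obtain ⟨V, hV⟩ := (𝓝 (0 : A)).exists_antitone_basis
  have h1 : ∀ n, ∃ v : Seminorm ℂ A, Continuous v ∧ ∀ x, v x < 1 → x ∈ V n := fun n =>
    exists_seminorm (hV.1.mem_of_mem trivial)
  choose v hv hvV using h1
  have h2 : ∀ U ∈ 𝓝 (0 : A), ∃ n, ∀ x, v n x < 1 → x ∈ U := by
    intro U hU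
    obtain ⟨n, -, hn⟩ := hV.1.mem_iff.1 hU
    exact ⟨n, fun x hx => hn (hvV n x hx)⟩
  refine ⟨v, hv, h2, fun s hs => ?_⟩
  have h3 : {x : A | s x < 1} ∈ 𝓝 (0 : A) := by
    refine (isOpen_lt hs continuous_const).mem_nhds ?_
    simp
  obtain ⟨n, hn⟩ := h2 _ h3
  exact ⟨n, le_of_ball s (v n) hn⟩

private lemma exists_lim (A : Type) [AddCommGroup A] [Module ℂ A] [TopologicalSpace A]
    [IsFrechet A] (Z : ℕ → A)
    (h : ∀ U ∈ 𝓝 (0 : A), ∃ N, ∀ n ≥ N, Z n - Z N ∈ U) : ∃ a, Tendsto Z atTop (𝓝 a) := by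
  let _ : UniformSpace A := IsTopologicalAddGroup.rightUniformSpace A
  have : CompleteSpace A := IsFrechet.complete
  have : IsUniformAddGroup A := isUniformAddGroup_of_addCommGroup
  refine cauchySeq_tendsto_of_complete ?_
  rw [cauchySeq_iff_tendsto, uniformity_eq_comap_nhds_zero, tendsto_comap_iff]
  intro U hU
  have h1 : Tendsto (fun p : A × A => p.1 - p.2) (𝓝 0 ×ˢ 𝓝 0) (𝓝 0) := by
    rw [← nhds_prod_eq]
    have : ContinuousAt (fun p : A × A => p.1 - p.2) (0, 0) := by fun_prop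
    simpa [ContinuousAt] using this
  have h2 := h1 hU
  rw [Filter.mem_map, Filter.mem_prod_self_iff] at h2
  obtain ⟨V, hV, hVU⟩ := h2
  obtain ⟨N, hN⟩ := h V hV
  rw [Filter.mem_map, ← prod_atTop_atTop_eq, Filter.mem_prod_self_iff]
  refine ⟨Set.Ici N, Ici_mem_atTop N, ?_⟩
  rintro ⟨m, n⟩ ⟨hm, hn⟩
  have h3 := hVU (Set.mk_mem_prod (hN n hn) (hN m hm))
  simpa using h3

private lemma dep_choice {α : Type} (Inv : ℕ → α → Prop) (Rel : ℕ → α → α → Prop) (a0 : α)
    (h0 : Inv 0 a0) (hs : ∀ k a, Inv k a → ∃ a', Inv (k + 1) a' ∧ Rel k a a') :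
    ∃ f : ℕ → α, f 0 = a0 ∧ ∀ k, Inv k (f k) ∧ Rel k (f k) (f (k + 1)) := by
  classical
  have hs' : ∀ k a, ∃ a', Inv k a → Inv (k + 1) a' ∧ Rel k a a' := by
    intro k a
    by_cases h : Inv k a
    · obtain ⟨a', ha'⟩ := hs k a h
      exact ⟨a', fun _ => ha'⟩
    · exact ⟨a, fun h' => absurd h' h⟩
  choose nx hnx using hs'
  let f : ℕ → α := fun n => Nat.rec a0 (fun k a => nx k a) n
  have hf : ∀ k, f (k + 1) = nx k (f k) := fun k => rfl
  have hI : ∀ k, Inv k (f k) := by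
    intro k
    induction k with
    | zero => exact h0
    | succ k ih =>
      rw [hf]
      exact (hnx k (f k) ih).1
  refine ⟨f, rfl, fun k => ⟨hI k, ?_⟩⟩
  rw [hf]
  exact (hnx k (f k) (hI k)).2

theorem hMB : StMB := by
  intro A _ _ _ _ _ H1 H2 p hp
  obtain ⟨v, hvc, hvU, hvs⟩ := exists_fam A
  have H2' : ∀ p : Seminorm ℂ A, Good p → ∃ q : Seminorm ℂ A, Continuous q ∧
      ∀ r : Seminorm ℂ A, Good r → ∀ ε : ℝ, 0 < ε → ∃ (y : ℕ → A) (C : ℝ), 0 ≤ C ∧
        CQ q r C y ∧ ∀ k, p (1 - y k) ≤ ε := by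
    intro p hp
    obtain ⟨q, hq, hqr⟩ := H2 p hp
    exact ⟨q, hq, fun r hr ε hε => improve hp.2 hr.2 (hqr r hr) ε hε⟩
  choose! up hup using H1
  choose! Q hQ using H2'
  -- the seminorms
  let P : ℕ → Seminorm ℂ A := fun n => Nat.rec p (fun k s => up (s + v k)) n
  have hP0 : P 0 = p := rfl
  have hPs : ∀ k, P (k + 1) = up (P k + v k) := fun k => rfl
  have hPg : ∀ k, Good (P k) := by
    intro k
    induction k with
    | zero => exact hp
    | succ k ih =>
      rw [hPs]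
      exact (hup _ (ih.1.add (hvc k))).1
  have hPle : ∀ k x, P k x + v k x ≤ P (k + 1) x := by
    intro k x
    rw [hPs]
    exact (hup (P k + v k) ((hPg k).1.add (hvc k))).2 x
  have hPle1 : ∀ k x, P k x ≤ P (k + 1) x := fun k x => by
    have := hPle k x
    have h3 := apply_nonneg (v k) x
    linarith
  have hPle2 : ∀ k x, v k x ≤ P (k + 1) x := fun k x => by
    have := hPle k x
    have h3 := apply_nonneg (P k) x
    linarith
  have hPmono : ∀ k l, k ≤ l → ∀ x, P k x ≤ P l x := by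
    intro k l hkl x
    induction hkl with
    | refl => exact le_rfl
    | step _ ih => exact ih.trans (hPle1 _ x)
  have hQc : ∀ k, Continuous (Q (P k)) := fun k => (hQ _ (hPg k)).1
  let R : ℕ → Seminorm ℂ A := fun n =>
    Nat.rec (up (Q (P 1) + P 1)) (fun k s => up (s + (Q (P (k + 2)) + P (k + 2)))) n
  have hRs : ∀ k, R (k + 1) = up (R k + (Q (P (k + 2)) + P (k + 2))) := fun k => rfl
  have hRg : ∀ k, Good (R k) := by
    intro k
    induction k with
    | zero => exact (hup _ ((hQc 1).add (hPg 1).1)).1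
    | succ k ih =>
      rw [hRs]
      exact (hup _ (ih.1.add ((hQc (k + 2)).add (hPg (k + 2)).1))).1
  have hRR : ∀ k x, R k x ≤ R (k + 1) x := by
    intro k x
    have h1 := (hup (R k + (Q (P (k + 2)) + P (k + 2)))
      ((hRg k).1.add ((hQc (k + 2)).add (hPg (k + 2)).1))).2 x
    rw [← hRs] at h1
    have h2 : (R k + (Q (P (k + 2)) + P (k + 2))) x = R k x + (Q (P (k + 2)) x + P (k + 2) x) := rfl
    rw [h2] at h1
    have h3 := apply_nonneg (Q (P (k + 2))) x
    have h4 := apply_nonneg (P (k + 2)) x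
    linarith
  have hRQP : ∀ k x, Q (P (k + 1)) x + P (k + 1) x ≤ R k x := by
    intro k x
    cases k with
    | zero => exact (hup (Q (P 1) + P 1) ((hQc 1).add (hPg 1).1)).2 x
    | succ k =>
      have h1 := (hup (R k + (Q (P (k + 2)) + P (k + 2)))
        ((hRg k).1.add ((hQc (k + 2)).add (hPg (k + 2)).1))).2 x
      rw [← hRs] at h1
      have h2 : (R k + (Q (P (k + 2)) + P (k + 2))) x =
        R k x + (Q (P (k + 2)) x + P (k + 2) x) := rfl
      rw [h2] at h1
      have h3 := apply_nonneg (R k) x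
      linarith
  have hRQ : ∀ k x, Q (P (k + 1)) x ≤ R k x := fun k x => by
    have := hRQP k x
    have h3 := apply_nonneg (P (k + 1)) x
    linarith
  have hRP : ∀ k x, P (k + 1) x ≤ R k x := fun k x => by
    have := hRQP k x
    have h3 := apply_nonneg (Q (P (k + 1))) x
    linarith
  -- the recursion
  obtain ⟨y0, C0, hC0, hy0, hy0e⟩ := (hQ _ hp).2 (R 0) (hRg 0) (1 / 8) (by norm_num)
  obtain ⟨z, hz0, hz⟩ := dep_choice (α := ℕ → A)
    (fun k z => ∃ D : ℝ, 0 ≤ D ∧ CQ (Q p) (R k) D z)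
    (fun k z z' => (∀ l, P (k + 1) (z' l - z l) ≤ (1 / 2) ^ (k + 4)) ∧
      ∀ b, ∀ ε : ℝ, 0 < ε → ∃ N, ∀ l ≥ N, P (k + 1) ((z' l - z l) * b) ≤
        (1 / 2) ^ (k + 4) * Q p b + ε) y0 ⟨C0, hC0, hy0⟩ (by
      rintro k z ⟨D, hD, hz⟩
      obtain ⟨z', D', hD', hz', h1, h2⟩ := stepL (hPg (k + 1)).2 (hRg (k + 1)).2 (hRQ k) (hRR k)
        (hRP k) (fun ε hε => (hQ _ (hPg (k + 1))).2 (R (k + 1)) (hRg (k + 1)) ε hε) hD hz
        (by positivity : (0 : ℝ) < (1 / 2) ^ (k + 4))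
      exact ⟨z', ⟨D', hD', hz'⟩, h1, h2⟩)
  have hzI : ∀ k, ∃ D : ℝ, 0 ≤ D ∧ CQ (Q p) (R k) D (z k) := fun k => (hz k).1
  choose D hD hzD using hzI
  have hL : ∀ k, ∃ L : ℕ, ∀ l ≥ L, ∀ l' ≥ L, R k (z k l - z k l') ≤ (1 / 2) ^ (k + 4) :=
    fun k => (hzD k).1 _ (by positivity)
  choose L hL using hL
  let LL : ℕ → ℕ := fun k => ∑ i ∈ Finset.range (k + 1), L i
  have hLL1 : ∀ k, L k ≤ LL k := fun k =>
    Finset.single_le_sum (f := L) (fun i _ => Nat.zero_le _) (Finset.self_mem_range_succ k)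
  have hLL2 : ∀ k, LL k ≤ LL (k + 1) := fun k => by
    show ∑ i ∈ Finset.range (k + 1), L i ≤ ∑ i ∈ Finset.range (k + 1 + 1), L i
    rw [Finset.sum_range_succ _ (k + 1)]
    exact Nat.le_add_right _ _
  let aa : ℕ → A := fun k => z k (LL k)
  have haa : ∀ k, P (k + 1) (aa (k + 1) - aa k) ≤ (1 / 2) ^ (k + 3) := by
    intro k
    have e1 : aa (k + 1) - aa k = (z (k + 1) (LL (k + 1)) - z k (LL (k + 1))) +
        (z k (LL (k + 1)) - z k (LL k)) := by
      show z (k + 1) (LL (k + 1)) - z k (LL k) = _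
      abel
    rw [e1]
    have h1 := map_add_le_add (P (k + 1)) (z (k + 1) (LL (k + 1)) - z k (LL (k + 1)))
      (z k (LL (k + 1)) - z k (LL k))
    have h2 := (hz k).2.1 (LL (k + 1))
    have h3 := (hRP k _).trans (hL k (LL (k + 1)) ((hLL1 k).trans (hLL2 k)) (LL k) (hLL1 k))
    have h4 : (1 / 2 : ℝ) ^ (k + 3) = 2 * (1 / 2) ^ (k + 4) := by
      rw [pow_succ (1 / 2 : ℝ) (k + 3)]
      ring
    linarith
  have hcau : ∀ m n, m ≤ n → ∀ i, P (m + 1) (aa (n + i) - aa n) ≤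
      (1 / 2) ^ (n + 2) * (1 - (1 / 2) ^ i) := by
    intro m n hmn i
    induction i with
    | zero => simp
    | succ i ih =>
      have e1 : aa (n + (i + 1)) - aa n = (aa (n + i + 1) - aa (n + i)) + (aa (n + i) - aa n) := by
        rw [← add_assoc]
        abel
      rw [e1]
      have h1 := map_add_le_add (P (m + 1)) (aa (n + i + 1) - aa (n + i)) (aa (n + i) - aa n)
      have h2 := (hPmono (m + 1) (n + i + 1) (by omega) (aa (n + i + 1) - aa (n + i))).trans
        (haa (n + i))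
      have h3 : (1 / 2 : ℝ) ^ (n + i + 3) = (1 / 2) ^ (n + 2) * (1 / 2) ^ i * (1 / 2) := by
        rw [← pow_add, ← pow_succ]
        congr 1
        omega
      rw [h3] at h2
      rw [pow_succ (1 / 2 : ℝ) i]
      linarith
  obtain ⟨a, ha⟩ := exists_lim A aa (by
    intro U hU
    obtain ⟨m, hm⟩ := hvU U hU
    refine ⟨m + 1, fun n hn => hm _ ?_⟩
    obtain ⟨i, rfl⟩ := Nat.exists_eq_add_of_le hn
    have h1 := (hPle2 m _).trans (hcau m (m + 1) (by omega) i)
    have h2 : (1 / 2 : ℝ) ^ (m + 1 + 2) ≤ 1 / 2 := by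
      rw [pow_succ]
      have : (1 / 2 : ℝ) ^ (m + 1 + 1) ≤ 1 := pow_le_one₀ (by norm_num) (by norm_num)
      linarith
    have h3 : (0 : ℝ) < (1 / 2) ^ i := by positivity
    have h4 : (0 : ℝ) < (1 / 2) ^ (m + 1 + 2) := by positivity
    refine lt_of_le_of_lt h1 ?_
    nlinarith)
  have hlim : ∀ m n, m ≤ n → P (m + 1) (a - aa n) ≤ (1 / 2) ^ (n + 2) := by
    intro m n hmn
    have h1 : Tendsto (fun k => P (m + 1) (aa k - aa n)) atTop (𝓝 (P (m + 1) (a - aa n))) :=
      ((hPg (m + 1)).1.tendsto _).comp (ha.sub_const (aa n))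
    refine le_of_tendsto h1 ?_
    filter_upwards [eventually_ge_atTop n] with k hk
    obtain ⟨i, rfl⟩ := Nat.exists_eq_add_of_le hk
    refine (hcau m n hmn i).trans ?_
    have h3 : (0 : ℝ) < (1 / 2) ^ i := by positivity
    have h4 : (0 : ℝ) < (1 / 2) ^ (n + 2) := by positivity
    nlinarith
  have hclose : ∀ j k, j ≤ k → ∀ l ≥ LL k, P (j + 1) (a - z k l) ≤ (1 / 2) ^ (k + 1) := by
    intro j k hjk l hl
    have e1 : a - z k l = (a - aa k) + (z k (LL k) - z k l) := by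
      show a - z k l = (a - z k (LL k)) + (z k (LL k) - z k l)
      abel
    rw [e1]
    have h1 := map_add_le_add (P (j + 1)) (a - aa k) (z k (LL k) - z k l)
    have h2 := hlim j k hjk
    have h3 := (hPmono (j + 1) (k + 1) (by omega) (z k (LL k) - z k l)).trans
      ((hRP k _).trans (hL k (LL k) (hLL1 k) l ((hLL1 k).trans hl)))
    have h4 : (1 / 2 : ℝ) ^ (k + 2) = 1 / 2 * (1 / 2) ^ (k + 1) := by
      rw [pow_succ (1 / 2 : ℝ) (k + 1)]
      ring
    have h5 : (1 / 2 : ℝ) ^ (k + 4) ≤ 1 / 2 * (1 / 2) ^ (k + 1) := by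
      rw [← h4]
      exact pow_le_pow_of_le_one (by norm_num) (by norm_num) (by omega)
    linarith
  have hbd : ∀ j i b, ∀ ε : ℝ, 0 < ε → ∃ N, ∀ l ≥ N, P (j + 1) (z (j + i) l * b) ≤
      (D j + 1 - (1 / 2) ^ i) * Q p b + ε := by
    intro j i b
    have hQb := apply_nonneg (Q p) b
    induction i with
    | zero =>
      intro ε hε
      have hRb := apply_nonneg (R j) b
      obtain ⟨N, hN⟩ := (hzD j).2 (ε / (1 + R j b)) (by positivity)
      refine ⟨N, fun l hl => ?_⟩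
      have h1 := (hRP j _).trans (hN l hl b)
      have h2 : ε / (1 + R j b) * R j b ≤ ε := by
        rw [div_mul_eq_mul_div, div_le_iff₀ (by linarith)]
        nlinarith
      have h3 : (D j + 1 - (1 / 2) ^ 0) * Q p b = D j * Q p b := by
        rw [pow_zero]
        ring
      rw [h3]
      show P (j + 1) (z j l * b) ≤ _
      linarith
    | succ i ih =>
      intro ε hε
      obtain ⟨N1, hN1⟩ := ih (ε / 2) (by positivity)
      obtain ⟨N2, hN2⟩ := (hz (j + i)).2.2 b (ε / 2) (by positivity)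
      refine ⟨max N1 N2, fun l hl => ?_⟩
      have e1 : z (j + (i + 1)) l * b =
          (z (j + i + 1) l - z (j + i) l) * b + z (j + i) l * b := by
        rw [← add_assoc]
        ring
      rw [e1]
      have h1 := map_add_le_add (P (j + 1)) ((z (j + i + 1) l - z (j + i) l) * b)
        (z (j + i) l * b)
      have h2 := (hPmono (j + 1) (j + i + 1) (by omega)
        ((z (j + i + 1) l - z (j + i) l) * b)).trans (hN2 l ((le_max_right _ _).trans hl))
      have h4 := hN1 l ((le_max_left _ _).trans hl)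
      have h3 : (1 / 2 : ℝ) ^ (j + i + 4) ≤ (1 / 2) ^ (i + 1) :=
        pow_le_pow_of_le_one (by norm_num) (by norm_num) (by omega)
      have h5 := mul_le_mul_of_nonneg_right h3 hQb
      have h6 : (1 / 2 : ℝ) ^ i = 2 * (1 / 2) ^ (i + 1) := by
        rw [pow_succ (1 / 2 : ℝ) i]
        ring
      rw [h6] at h4
      have h7 : (D j + 1 - 2 * (1 / 2) ^ (i + 1)) * Q p b + (1 / 2) ^ (i + 1) * Q p b =
          (D j + 1 - (1 / 2) ^ (i + 1)) * Q p b := by ring
      linarith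
  have hlimb : ∀ j b, P (j + 1) (a * b) ≤ (D j + 1) * Q p b := by
    intro j b
    have hQb := apply_nonneg (Q p) b
    have hPb := apply_nonneg (P (j + 1)) b
    refine le_of_forall_pos_le_add fun ε hε => ?_
    obtain ⟨i, hi⟩ := half_small (by positivity : 0 < ε / (2 * (1 + P (j + 1) b)))
    obtain ⟨N, hN⟩ := hbd j i b (ε / 2) (by positivity)
    have e1 : a * b = (a - z (j + i) (max N (LL (j + i)))) * b +
        z (j + i) (max N (LL (j + i))) * b := by ring
    rw [e1]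
    have h1 := map_add_le_add (P (j + 1)) ((a - z (j + i) (max N (LL (j + i)))) * b)
      (z (j + i) (max N (LL (j + i))) * b)
    have h2 := hN (max N (LL (j + i))) (le_max_left _ _)
    have h3 := hclose j (j + i) (by omega) (max N (LL (j + i))) (le_max_right _ _)
    have h4 := h3.trans (hi (j + i + 1) (by omega))
    have h5 := ((hPg (j + 1)).2 (a - z (j + i) (max N (LL (j + i)))) b).trans
      (mul_le_mul_of_nonneg_right h4 hPb)
    have h6 : ε / (2 * (1 + P (j + 1) b)) * P (j + 1) b ≤ ε / 2 := by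
      rw [div_mul_eq_mul_div, div_le_iff₀ (by positivity)]
      nlinarith
    have h7 : (0 : ℝ) < (1 / 2) ^ i := by positivity
    have h8 : (D j + 1 - (1 / 2) ^ i) * Q p b ≤ (D j + 1) * Q p b :=
      mul_le_mul_of_nonneg_right (by linarith) hQb
    linarith
  refine ⟨a, ⟨Q p, (hQ _ hp).1, fun r hr => ?_⟩, ?_⟩
  · obtain ⟨n, hn⟩ := hvs r hr
    exact ⟨D n + 1, fun b => (hn _).trans ((hPle2 n _).trans (hlimb n b))⟩
  · have h1 : p (1 - aa 0) ≤ 1 / 8 := by
      show p (1 - z 0 (LL 0)) ≤ 1 / 8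
      rw [hz0]
      exact hy0e _
    have h2 := (hPmono 0 1 (by omega) (a - aa 0)).trans (hlim 0 0 le_rfl)
    rw [hP0] at h2
    have e1 : 1 - a = (1 - aa 0) - (a - aa 0) := by abel
    rw [e1]
    have h3 := map_sub_le_add p (1 - aa 0) (a - aa 0)
    have h4 : (1 / 2 : ℝ) ^ (0 + 2) = 1 / 4 := by norm_num
    rw [h4] at h2
    linarith

end Pool.Agent.Helper31.SM
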